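import Mathlib

set_option autoImplicit false

open scoped Topology ContDiff ComplexConjugate
open Set Filter MeasureTheory Complex

namespace Pool.Agent.Results.MP_c4ba3a_an.SphereCR

/-- `γ` is a smooth local parametrisation, on the open set `V ⊆ ℝᵐ`, of the set `M ⊆ ℂⁿ`: it is
an injective immersion on `V` whose image is a relatively open subset of `M`. -/
def IsLocalParam {n m : ℕ} (M : Set (Fin n → ℂ)) (V : Set (EuclideanSpace ℝ (Fin m)))
    (γ : EuclideanSpace ℝ (Fin m) → (Fin n → ℂ)) : Prop :=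
  IsOpen V ∧ ContDiffOn ℝ ∞ γ V ∧ InjOn γ V ∧ (∀ x ∈ V, Function.Injective (fderiv ℝ γ x)) ∧
    ∃ O : Set (Fin n → ℂ), IsOpen O ∧ γ '' V = M ∩ O

/-- The `j`-th partial derivative. -/
noncomputable def pd {m : ℕ} {E : Type*} [NormedAddCommGroup E] [NormedSpace ℝ E] (j : Fin m)
    (u : EuclideanSpace ℝ (Fin m) → E) (x : EuclideanSpace ℝ (Fin m)) : E :=
  fderiv ℝ u x (EuclideanSpace.single j 1)

/-- `u : M → ℂ` is a continuous CR function on the submanifold `M ⊆ ℂⁿ`: it is continuous, and it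
is annihilated in the sense of distributions by the `(0,1)` vector fields of `M`.  In local
coordinates given by `γ`, a compactly supported smooth complex vector field `∑ c_j ∂_j` on `V` is a
`(0,1)` vector field of `M` if and only if it annihilates the components of `γ` (the coordinate
functions of `ℂⁿ` restricted to `M`), and the condition on `u` is that the integral of `u` times
the divergence of the vector field vanishes. -/
def IsCRFunction {n : ℕ} (M : Set (Fin n → ℂ)) (u : (Fin n → ℂ) → ℂ) : Prop :=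
  ContinuousOn u M ∧
  ∀ (m : ℕ) (V : Set (EuclideanSpace ℝ (Fin m))) (γ : EuclideanSpace ℝ (Fin m) → (Fin n → ℂ))
    (c : Fin m → EuclideanSpace ℝ (Fin m) → ℂ),
    IsLocalParam M V γ →
    (∀ j, ContDiff ℝ ∞ (c j)) → (∀ j, HasCompactSupport (c j)) → (∀ j, tsupport (c j) ⊆ V) →
    (∀ x ∈ V, ∀ k : Fin n, ∑ j, c j x * pd j γ x k = 0) →
    ∫ x, (∑ j, pd j (c j) x) * u (γ x) = 0

theorem continuous_mul_of_tsupport {X : Type*} [TopologicalSpace X] {V : Set X} (hV : IsOpen V)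
    {φ g : X → ℂ} (hφ : Continuous φ) (hs : tsupport φ ⊆ V) (hg : ContinuousOn g V) :
    Continuous (fun x => φ x * g x) := by
  rw [continuous_iff_continuousAt]
  intro x
  by_cases hx : x ∈ V
  · exact hφ.continuousAt.mul (hg.continuousAt (hV.mem_nhds hx))
  · have hx' : x ∉ tsupport φ := fun h => hx (hs h)
    have h0 : (fun x => φ x * g x) =ᶠ[𝓝 x] fun _ => 0 := by
      have : ∀ᶠ y in 𝓝 x, y ∉ tsupport φ := (isClosed_tsupport φ).isOpen_compl.mem_nhds hx'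
      filter_upwards [this] with y hy
      rw [image_eq_zero_of_notMem_tsupport hy, zero_mul]
    exact continuousAt_const.congr h0.symm

/-- A function on `M` with a continuous field of complex linear derivatives is CR. -/
theorem isCRFunction_of_deriv {n : ℕ} {M : Set (Fin n → ℂ)} {u : (Fin n → ℂ) → ℂ}
    (D : (Fin n → ℂ) → ((Fin n → ℂ) →L[ℂ] ℂ)) (hD : ContinuousOn D M)
    (hu : ∀ q ∈ M, HasFDerivWithinAt u ((D q).restrictScalars ℝ) M q) : IsCRFunction M u := by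
  refine ⟨fun q hq => (hu q hq).continuousWithinAt, ?_⟩
  rintro m V γ c ⟨hV, hγ, -, -, O, -, hO⟩ hc hcs hcV h0
  have hmaps : MapsTo γ V M := by
    intro x hx
    have : γ x ∈ γ '' V := ⟨x, hx, rfl⟩
    rw [hO] at this
    exact this.1
  have hγd : ∀ x ∈ V, HasFDerivAt γ (fderiv ℝ γ x) x := fun x hx =>
    ((hγ.contDiffAt (hV.mem_nhds hx)).differentiableAt (by simp)).hasFDerivAt
  have hγc : ContinuousOn (fderiv ℝ γ) V := hγ.continuousOn_fderiv_of_isOpen hV (by simp)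
  have hg : ∀ x ∈ V, HasFDerivAt (fun x => u (γ x))
      (((D (γ x)).restrictScalars ℝ).comp (fderiv ℝ γ x)) x := by
    intro x hx
    have h1 := (hu (γ x) (hmaps hx)).comp x ((hγd x hx).hasFDerivWithinAt (s := V)) hmaps
    exact h1.hasFDerivAt (hV.mem_nhds hx)
  have hgc : ContinuousOn (fun x => u (γ x)) V := fun x hx =>
    (hg x hx).continuousAt.continuousWithinAt
  have hfd : ∀ x ∈ V, ∀ j, pd j (fun x => u (γ x)) x = D (γ x) (pd j γ x) := by
    intro x hx j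
    rw [pd, (hg x hx).fderiv]
    rfl
  have hDc : ∀ j, ContinuousOn (fun x => pd j (fun x => u (γ x)) x) V := by
    intro j
    have h2 : ContinuousOn (fun x => D (γ x) (pd j γ x)) V := by
      refine ContinuousOn.clm_apply (hD.comp hγ.continuousOn hmaps) ?_
      exact hγc.clm_apply continuousOn_const
    exact h2.congr (fun x hx => hfd x hx j)
  have key : ∀ j, ∫ x, c j x * pd j (fun x => u (γ x)) x = - ∫ x, pd j (c j) x * u (γ x) := by
    intro j
    have hpd : Continuous (fun x => pd j (c j) x) :=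
      ((hc j).continuous_fderiv (by simp)).clm_apply continuous_const
    have hts : tsupport (fun x => pd j (c j) x) ⊆ tsupport (c j) :=
      tsupport_fderiv_apply_subset ℝ _
    refine integral_mul_fderiv_eq_neg_fderiv_mul_of_integrable ?_ ?_ ?_ ?_ ?_
    · refine (continuous_mul_of_tsupport hV hpd (hts.trans (hcV j)) hgc).integrable_of_hasCompactSupport ?_
      exact ((hcs j).fderiv_apply ℝ _).mul_right
    · refine (continuous_mul_of_tsupport hV (hc j).continuous (hcV j) (hDc j)).integrable_of_hasCompactSupport ?_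
      exact (hcs j).mul_right
    · refine (continuous_mul_of_tsupport hV (hc j).continuous (hcV j) hgc).integrable_of_hasCompactSupport ?_
      exact (hcs j).mul_right
    · intro x _
      exact (hc j).differentiable (by simp) x
    · intro x hx
      exact (hg x (hcV j hx)).differentiableAt
  have hint : ∀ j, Integrable (fun x => pd j (c j) x * u (γ x)) := by
    intro j
    have hpd : Continuous (fun x => pd j (c j) x) :=
      ((hc j).continuous_fderiv (by simp)).clm_apply continuous_const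
    have hts : tsupport (fun x => pd j (c j) x) ⊆ tsupport (c j) :=
      tsupport_fderiv_apply_subset ℝ _
    refine (continuous_mul_of_tsupport hV hpd (hts.trans (hcV j)) hgc).integrable_of_hasCompactSupport ?_
    exact ((hcs j).fderiv_apply ℝ _).mul_right
  have hint2 : ∀ j, Integrable (fun x => c j x * pd j (fun x => u (γ x)) x) := by
    intro j
    refine (continuous_mul_of_tsupport hV (hc j).continuous (hcV j) (hDc j)).integrable_of_hasCompactSupport ?_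
    exact (hcs j).mul_right
  have h1 : ∫ x, (∑ j, pd j (c j) x) * u (γ x) = ∑ j, ∫ x, pd j (c j) x * u (γ x) := by
    rw [← integral_finsetSum _ (fun j _ => hint j)]
    congr 1
    funext x
    rw [Finset.sum_mul]
  have h2 : ∑ j, ∫ x, c j x * pd j (fun x => u (γ x)) x = 0 := by
    rw [← integral_finsetSum _ (fun j _ => hint2 j)]
    have h3 : (fun x => ∑ j, c j x * pd j (fun x => u (γ x)) x) = fun _ => 0 := by
      funext x
      by_cases hx : x ∈ V
      · have h4 : ∑ j, c j x * pd j (fun x => u (γ x)) x = D (γ x) (∑ j, c j x • pd j γ x) := by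
          rw [map_sum]
          refine Finset.sum_congr rfl fun j _ => ?_
          rw [map_smul, hfd x hx j, smul_eq_mul]
        have h5 : ∑ j, c j x • pd j γ x = 0 := by
          ext k
          rw [Finset.sum_apply]
          simpa using h0 x hx k
        rw [h4, h5, map_zero]
      · refine Finset.sum_eq_zero fun j _ => ?_
        rw [image_eq_zero_of_notMem_tsupport (fun h => hx (hcV j h)), zero_mul]
    rw [h3, integral_zero]
  rw [h1, ← neg_eq_zero, ← Finset.sum_neg_distrib, ← h2]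
  exact Finset.sum_congr rfl fun j _ => (key j).symm

/-- `ρ : ℂⁿ → ℝᵈ` is a real-analytic defining function of the generic real-analytic submanifold
`M = {ρ = 0}` of real codimension `d`: at every point of `M` the differential of `ρ` is onto, so
that `T_q M = ker dρ_q`, and `T_q M + i T_q M = ℂⁿ`. -/
def IsGenericDefining {n d : ℕ} (ρ : (Fin n → ℂ) → (Fin d → ℝ)) : Prop :=
  AnalyticOnNhd ℝ ρ univ ∧
  ∀ q, ρ q = 0 → Function.Surjective (fderiv ℝ ρ q) ∧
    ∀ v : Fin n → ℂ, ∃ a b : Fin n → ℂ,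
      fderiv ℝ ρ q a = 0 ∧ fderiv ℝ ρ q b = 0 ∧ v = a + I • b

/-- `M = {ρ = 0}` is minimal at `p` (in the sense of Tumanov): there is no real submanifold
`S ⊆ M` (of class `C²`, of codimension `k > d` in `ℂⁿ`) through `p` whose tangent spaces `ker dg_x`
contain the complex tangent spaces `{v | dρ_x(v) = dρ_x(i v) = 0}` of `M`. -/
def IsMinimalAt {n d : ℕ} (ρ : (Fin n → ℂ) → (Fin d → ℝ)) (p : Fin n → ℂ) : Prop :=
  ¬ ∃ (k : ℕ) (S : Set (Fin n → ℂ)), d < k ∧ p ∈ S ∧ S ⊆ {x | ρ x = 0} ∧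
    ∀ q ∈ S, ∃ (U : Set (Fin n → ℂ)) (g : (Fin n → ℂ) → (Fin k → ℝ)),
      IsOpen U ∧ q ∈ U ∧ ContDiffOn ℝ 2 g U ∧ S ∩ U = {x | x ∈ U ∧ g x = 0} ∧
      ∀ x ∈ S ∩ U, Function.Surjective (fderiv ℝ g x) ∧
        ∀ v, fderiv ℝ ρ x v = 0 → fderiv ℝ ρ x (I • v) = 0 → fderiv ℝ g x v = 0

section mfd

/-- real part of a coordinate -/
noncomputable def reL (i : Fin 4) : (Fin 4 → ℂ) →L[ℝ] ℝ :=
  reCLM.comp (ContinuousLinearMap.proj i)

/-- imaginary part of a coordinate -/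
noncomputable def imL (i : Fin 4) : (Fin 4 → ℂ) →L[ℝ] ℝ :=
  imCLM.comp (ContinuousLinearMap.proj i)

theorem reL_apply (i : Fin 4) (x : Fin 4 → ℂ) : reL i x = (x i).re := rfl
theorem imL_apply (i : Fin 4) (x : Fin 4 → ℂ) : imL i x = (x i).im := rfl

/-- squared modulus of a coordinate -/
noncomputable def ns (i : Fin 4) (x : Fin 4 → ℂ) : ℝ := reL i x * reL i x + imL i x * imL i x

theorem ns_eq (i : Fin 4) (x : Fin 4 → ℂ) : ns i x = normSq (x i) := by
  rw [ns, normSq_apply]; rfl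

theorem ns_analytic (i : Fin 4) (x : Fin 4 → ℂ) : AnalyticAt ℝ (ns i) x :=
  (((reL i).analyticAt x).mul ((reL i).analyticAt x)).add
    (((imL i).analyticAt x).mul ((imL i).analyticAt x))

theorem ns_deriv (i : Fin 4) (x : Fin 4 → ℂ) :
    HasFDerivAt (ns i) ((2 * (x i).re) • reL i + (2 * (x i).im) • imL i) x := by
  have h := (((reL i).hasFDerivAt (x := x)).mul ((reL i).hasFDerivAt (x := x))).add
    (((imL i).hasFDerivAt (x := x)).mul ((imL i).hasFDerivAt (x := x)))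
  refine h.congr_fderiv ?_
  ext v
  simp [reL_apply, imL_apply]
  ring

/-- the defining function: `Re b = |a|² + |b|²`, `Re W = |z|² + 2|a|² + 2|b|²` in the coordinates
`(z, a, b, W) = (x 0, x 1, x 2, x 3)` -/
noncomputable def rho (x : Fin 4 → ℂ) : Fin 2 → ℝ :=
  ![reL 2 x - (ns 1 x + ns 2 x), reL 3 x - (ns 0 x + 2 * (ns 1 x + ns 2 x))]

theorem rho_zero_iff (x : Fin 4 → ℂ) : rho x = 0 ↔
    (x 2).re = normSq (x 1) + normSq (x 2) ∧
    (x 3).re = normSq (x 0) + 2 * (normSq (x 1) + normSq (x 2)) := by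
  rw [funext_iff, Fin.forall_fin_two]
  simp only [rho, Matrix.cons_val_zero, Matrix.cons_val_one, ns_eq, reL_apply,
    Pi.zero_apply, sub_eq_zero]

theorem rho_analytic : AnalyticOnNhd ℝ rho univ := by
  intro x _
  rw [analyticAt_pi_iff]
  intro i
  fin_cases i
  · exact ((reL 2).analyticAt x).sub ((ns_analytic 1 x).add (ns_analytic 2 x))
  · exact ((reL 3).analyticAt x).sub ((ns_analytic 0 x).add
      (analyticAt_const.mul ((ns_analytic 1 x).add (ns_analytic 2 x))))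

/-- complex-linear form whose real part is the differential of the first component -/
noncomputable def A1 (q v : Fin 4 → ℂ) : ℂ := (1 - 2 * conj (q 2)) * v 2 - 2 * conj (q 1) * v 1

/-- complex-linear form whose real part is the differential of the second component -/
noncomputable def A2 (q v : Fin 4 → ℂ) : ℂ :=
  v 3 - 2 * conj (q 0) * v 0 - 4 * conj (q 1) * v 1 - 4 * conj (q 2) * v 2

theorem rho_fderiv (q v : Fin 4 → ℂ) : fderiv ℝ rho q v = ![(A1 q v).re, (A2 q v).re] := by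
  have h0 := ((reL 2).hasFDerivAt (x := q)).sub ((ns_deriv 1 q).add (ns_deriv 2 q))
  have h1 := ((reL 3).hasFDerivAt (x := q)).sub ((ns_deriv 0 q).add
      (((ns_deriv 1 q).add (ns_deriv 2 q)).const_mul 2))
  have hd : HasFDerivAt rho (fderiv ℝ rho q) q :=
    (rho_analytic q trivial).differentiableAt.hasFDerivAt
  have e0 := (hasFDerivAt_pi'.mp hd 0).unique h0
  have e1 := (hasFDerivAt_pi'.mp hd 1).unique h1
  ext i
  fin_cases i
  · have := congrArg (fun L : (Fin 4 → ℂ) →L[ℝ] ℝ => L v) e0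
    simp only [ContinuousLinearMap.comp_apply, ContinuousLinearMap.proj_apply] at this
    show fderiv ℝ rho q v 0 = (A1 q v).re
    rw [this]
    simp [A1, reL_apply, imL_apply]
    ring
  · have := congrArg (fun L : (Fin 4 → ℂ) →L[ℝ] ℝ => L v) e1
    simp only [ContinuousLinearMap.comp_apply, ContinuousLinearMap.proj_apply] at this
    show fderiv ℝ rho q v 1 = (A2 q v).re
    rw [this]
    simp [A2, reL_apply, imL_apply]
    ring

theorem A1_smul (q v : Fin 4 → ℂ) (c : ℂ) : A1 q (c • v) = c * A1 q v := by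
  simp [A1]; ring

theorem A2_smul (q v : Fin 4 → ℂ) (c : ℂ) : A2 q (c • v) = c * A2 q v := by
  simp [A2]; ring

theorem A1_sub (q v w : Fin 4 → ℂ) : A1 q (v - w) = A1 q v - A1 q w := by
  simp [A1]; ring

theorem A2_sub (q v w : Fin 4 → ℂ) : A2 q (v - w) = A2 q v - A2 q w := by
  simp [A2]; ring

theorem sphere_id {q : Fin 4 → ℂ} (hq : rho q = 0) :
    (1 - 2 * conj (q 2)) * (1 - 2 * q 2) + 4 * (conj (q 1) * q 1) = 1 := by
  rw [rho_zero_iff] at hq
  have h := hq.1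
  have e1 : conj (q 1) * q 1 = (normSq (q 1) : ℂ) := normSq_eq_conj_mul_self.symm
  have e2 : conj (q 2) * q 2 = (normSq (q 2) : ℂ) := normSq_eq_conj_mul_self.symm
  have e3 : q 2 + conj (q 2) = 2 * ((q 2).re : ℂ) := by
    rw [add_conj]; push_cast; ring
  have h' : ((q 2).re : ℂ) = (normSq (q 1) : ℂ) + (normSq (q 2) : ℂ) := by
    rw [h]; push_cast; ring
  rw [e1]
  linear_combination (-2) * e3 + 4 * e2 - 4 * h'

/-- the two complex forms are independent on `M` -/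
theorem solve {q : Fin 4 → ℂ} (hq : rho q = 0) (c d : ℂ) : ∃ y, A1 q y = c ∧ A2 q y = d := by
  have h := sphere_id hq
  refine ⟨![0, -2 * q 1 * c, (1 - 2 * q 2) * c,
    d + 4 * conj (q 1) * (-2 * q 1 * c) + 4 * conj (q 2) * ((1 - 2 * q 2) * c)], ?_, ?_⟩
  · simp only [A1, Matrix.cons_val_one, Matrix.cons_val]
    linear_combination c * h
  · simp only [A2, Matrix.cons_val_one, Matrix.cons_val]
    ring

theorem rho_generic : IsGenericDefining rho := by
  refine ⟨rho_analytic, fun q hq => ⟨?_, ?_⟩⟩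
  · intro s
    obtain ⟨y, h1, h2⟩ := solve hq (s 0 : ℂ) (s 1 : ℂ)
    refine ⟨y, ?_⟩
    rw [rho_fderiv, h1, h2]
    ext i
    fin_cases i <;> simp
  · intro v
    obtain ⟨y, h1, h2⟩ := solve hq (-(I * ((A1 q v).re : ℂ))) (-(I * ((A2 q v).re : ℂ)))
    refine ⟨v - I • y, y, ?_, ?_, ?_⟩
    · rw [rho_fderiv, A1_sub, A2_sub, A1_smul, A2_smul, h1, h2]
      ext i
      fin_cases i
      · simp
      · simp
    · rw [rho_fderiv, h1, h2]
      ext i
      fin_cases i <;> simp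
    · simp

end mfd

section minimal

/-- A function vanishing on a regular level set has zero derivative in tangential directions. -/
theorem tangential {E F : Type*} [NormedAddCommGroup E] [NormedSpace ℝ E] [CompleteSpace E]
    [NormedAddCommGroup F] [NormedSpace ℝ F] [CompleteSpace F]
    {g : E → F} {g' : E →L[ℝ] F} {φ : E → ℝ} {φ' : E →L[ℝ] ℝ} {x : E}
    (hg : HasStrictFDerivAt g g' x) (hφ : HasStrictFDerivAt φ φ' x)
    (hsurj : Function.Surjective g') (h0 : ∀ᶠ y in 𝓝 x, g y = g x → φ y = φ x)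
    (v : E) (hv : g' v = 0) : φ' v = 0 := by
  have hext : IsLocalExtrOn φ {y | g y = g x} x := by
    left
    show ∀ᶠ y in 𝓝[{y | g y = g x}] x, φ x ≤ φ y
    rw [eventually_nhdsWithin_iff]
    filter_upwards [h0] with y hy hy'
    exact (hy hy').ge
  obtain ⟨Λ, Λ₀, hne, h⟩ := hext.exists_linear_map_of_hasStrictFDerivAt hg hφ
  by_cases hΛ : Λ₀ = 0
  · exfalso
    apply hne
    rw [hΛ] at h ⊢
    have : Λ = 0 := by
      ext y
      obtain ⟨z, rfl⟩ := hsurj y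
      have := h z
      simpa using this
    rw [this]
    rfl
  · have h1 := h v
    rw [hv, map_zero, zero_add, smul_eq_mul] at h1
    rcases mul_eq_zero.mp h1 with h2 | h2
    · exact absurd h2 hΛ
    · exact h2

/-- If two vector fields are tangent to a regular level set, so is their bracket. -/
theorem bracket {E : Type*} [NormedAddCommGroup E] [NormedSpace ℝ E] [CompleteSpace E]
    {k : ℕ} {g : E → (Fin k → ℝ)} {x : E} (hg : ContDiffAt ℝ 2 g x)
    (hsurj : Function.Surjective (fderiv ℝ g x)) (hgx : g x = 0)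
    {X Y : E → E} {X' Y' : E →L[ℝ] E} (hX : HasStrictFDerivAt X X' x)
    (hY : HasStrictFDerivAt Y Y' x)
    (hX0 : ∀ᶠ y in 𝓝 x, g y = 0 → fderiv ℝ g y (X y) = 0)
    (hY0 : ∀ᶠ y in 𝓝 x, g y = 0 → fderiv ℝ g y (Y y) = 0) :
    fderiv ℝ g x (X' (Y x) - Y' (X x)) = 0 := by
  have hgs : HasStrictFDerivAt g (fderiv ℝ g x) x := hg.hasStrictFDerivAt (by simp)
  have hg2 : ContDiffAt ℝ 1 (fderiv ℝ g) x := hg.fderiv_right (by norm_num)
  have hg2s : HasStrictFDerivAt (fderiv ℝ g) (fderiv ℝ (fderiv ℝ g) x) x :=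
    hg2.hasStrictFDerivAt (by simp)
  have key : ∀ (Z : E → E) (Z' : E →L[ℝ] E), HasStrictFDerivAt Z Z' x →
      (∀ᶠ y in 𝓝 x, g y = 0 → fderiv ℝ g y (Z y) = 0) → ∀ v, fderiv ℝ g x v = 0 →
      fderiv ℝ g x (Z' v) + fderiv ℝ (fderiv ℝ g) x v (Z x) = 0 := by
    intro Z Z' hZ hZ0 v hv
    have h1 := hg2s.clm_apply hZ
    ext i
    have h2 := (hasStrictFDerivAt_pi'.mp h1) i
    have h3 := tangential hgs h2 hsurj (by
      filter_upwards [hZ0] with y hy hy'
      rw [hgx] at hy'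
      have h5 := hZ0.self_of_nhds hgx
      show fderiv ℝ g y (Z y) i = fderiv ℝ g x (Z x) i
      rw [hy hy', h5]) v hv
    exact h3
  have hXx : fderiv ℝ g x (X x) = 0 := hX0.self_of_nhds hgx
  have hYx : fderiv ℝ g x (Y x) = 0 := hY0.self_of_nhds hgx
  have k1 := key X X' hX hX0 (Y x) hYx
  have k2 := key Y Y' hY hY0 (X x) hXx
  have hsymm : IsSymmSndFDerivAt ℝ g x := hg.isSymmSndFDerivAt (by simp)
  have h3 := hsymm.eq (X x) (Y x)
  rw [map_sub, sub_eq_zero]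
  have e1 : fderiv ℝ g x (X' (Y x)) = -(fderiv ℝ (fderiv ℝ g) x (Y x) (X x)) :=
    eq_neg_of_add_eq_zero_left k1
  have e2 : fderiv ℝ g x (Y' (X x)) = -(fderiv ℝ (fderiv ℝ g) x (X x) (Y x)) :=
    eq_neg_of_add_eq_zero_left k2
  rw [e1, e2, h3]

/-- conjugation of a coordinate as a real-linear map -/
noncomputable def cj (i : Fin 4) : (Fin 4 → ℂ) →L[ℝ] ℂ :=
  (conjCLE : ℂ →L[ℝ] ℂ).comp (ContinuousLinearMap.proj i)

theorem cj_apply (i : Fin 4) (x : Fin 4 → ℂ) : cj i x = conj (x i) := rfl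

/-- first horizontal vector field -/
noncomputable def X1 (l : ℂ) (x : Fin 4 → ℂ) : Fin 4 → ℂ := ![l, 0, 0, l * (2 * cj 0 x)]

/-- second horizontal vector field -/
noncomputable def X2 (l : ℂ) (x : Fin 4 → ℂ) : Fin 4 → ℂ :=
  ![0, l * (1 - 2 * cj 2 x), l * (2 * cj 1 x), l * (4 * cj 1 x)]

noncomputable def X1' (l : ℂ) : (Fin 4 → ℂ) →L[ℝ] (Fin 4 → ℂ) :=
  ContinuousLinearMap.pi ![0, 0, 0, (l * 2) • cj 0]

noncomputable def X2' (l : ℂ) : (Fin 4 → ℂ) →L[ℝ] (Fin 4 → ℂ) :=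
  ContinuousLinearMap.pi ![0, (-(l * 2)) • cj 2, (l * 2) • cj 1, (l * 4) • cj 1]

theorem X1_strict (l : ℂ) (x : Fin 4 → ℂ) : HasStrictFDerivAt (X1 l) (X1' l) x := by
  rw [hasStrictFDerivAt_pi']
  intro i
  fin_cases i
  · exact hasStrictFDerivAt_const l x
  · exact hasStrictFDerivAt_const 0 x
  · exact hasStrictFDerivAt_const 0 x
  · have h := (((cj 0).hasStrictFDerivAt (x := x)).const_mul 2).const_mul l
    refine h.congr_fderiv ?_
    ext v
    simp [X1']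
    ring

theorem X2_strict (l : ℂ) (x : Fin 4 → ℂ) : HasStrictFDerivAt (X2 l) (X2' l) x := by
  rw [hasStrictFDerivAt_pi']
  intro i
  fin_cases i
  · exact hasStrictFDerivAt_const 0 x
  · have h := ((((cj 2).hasStrictFDerivAt (x := x)).const_mul 2).const_sub 1).const_mul l
    refine h.congr_fderiv ?_
    ext v
    simp [X2']
    ring
  · have h := (((cj 1).hasStrictFDerivAt (x := x)).const_mul 2).const_mul l
    refine h.congr_fderiv ?_
    ext v
    simp [X2']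
    ring
  · have h := (((cj 1).hasStrictFDerivAt (x := x)).const_mul 4).const_mul l
    refine h.congr_fderiv ?_
    ext v
    simp [X2']
    ring

theorem X1_horizontal (l : ℂ) (x : Fin 4 → ℂ) : A1 x (X1 l x) = 0 ∧ A2 x (X1 l x) = 0 := by
  constructor
  · simp [A1, X1]
  · simp [A2, X1, cj_apply]; ring

theorem X2_horizontal (l : ℂ) (x : Fin 4 → ℂ) : A1 x (X2 l x) = 0 ∧ A2 x (X2 l x) = 0 := by
  constructor
  · simp [A1, X2, cj_apply]; ring
  · simp [A2, X2, cj_apply]; ring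

theorem rho_minimal : IsMinimalAt rho 0 := by
  rintro ⟨k, S, hk, h0S, hSM, hS⟩
  obtain ⟨U, g, hU, h0U, hg, hSU, hx⟩ := hS 0 h0S
  have h0 : (0 : Fin 4 → ℂ) ∈ S ∩ U := ⟨h0S, h0U⟩
  have hg0 : g 0 = 0 := by
    have := h0
    rw [hSU] at this
    exact this.2
  have hgc : ContDiffAt ℝ 2 g 0 := hg.contDiffAt (hU.mem_nhds h0U)
  obtain ⟨hsurj, hker⟩ := hx 0 h0
  have hUev : ∀ᶠ y in 𝓝 (0 : Fin 4 → ℂ), y ∈ U := hU.mem_nhds h0U
  have hor : ∀ (Z : (Fin 4 → ℂ) → (Fin 4 → ℂ)), (∀ x, A1 x (Z x) = 0 ∧ A2 x (Z x) = 0) →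
      ∀ᶠ y in 𝓝 (0 : Fin 4 → ℂ), g y = 0 → fderiv ℝ g y (Z y) = 0 := by
    intro Z hZ
    filter_upwards [hUev] with y hyU hgy
    have hy : y ∈ S ∩ U := by rw [hSU]; exact ⟨hyU, hgy⟩
    refine (hx y hy).2 _ ?_ ?_
    · rw [rho_fderiv, (hZ y).1, (hZ y).2]
      ext i; fin_cases i <;> simp
    · rw [rho_fderiv, A1_smul, A2_smul, (hZ y).1, (hZ y).2]
      ext i; fin_cases i <;> simp
  have b1 := bracket hgc hsurj hg0 (X1_strict 1 0) (X1_strict I 0)
    (hor _ (X1_horizontal 1)) (hor _ (X1_horizontal I))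
  have b2 := bracket hgc hsurj hg0 (X2_strict 1 0) (X2_strict I 0)
    (hor _ (X2_horizontal 1)) (hor _ (X2_horizontal I))
  have e1 : X1' 1 (X1 I 0) - X1' I (X1 1 0) = (-4 : ℝ) • (![0, 0, 0, I] : Fin 4 → ℂ) := by
    ext i
    fin_cases i
    · simp [X1', X1, cj_apply]
    · simp [X1', X1, cj_apply]
    · simp [X1', X1, cj_apply]
    · simp [X1', X1, cj_apply]; ring
  have e2 : X2' 1 (X2 I 0) - X2' I (X2 1 0) =
      (-4 : ℝ) • (![0, 0, I, 0] : Fin 4 → ℂ) + (-8 : ℝ) • (![0, 0, 0, I] : Fin 4 → ℂ) := by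
    ext i
    fin_cases i
    · simp [X2', X2, cj_apply]
    · simp [X2', X2, cj_apply]
    · simp [X2', X2, cj_apply]; ring
    · simp [X2', X2, cj_apply]; ring
  rw [e1, map_smul] at b1
  have c1 : fderiv ℝ g 0 ![0, 0, 0, I] = 0 := by
    rcases smul_eq_zero.mp b1 with h | h
    · norm_num at h
    · exact h
  rw [e2, map_add, map_smul, map_smul, c1, smul_zero, add_zero] at b2
  have c2 : fderiv ℝ g 0 ![0, 0, I, 0] = 0 := by
    rcases smul_eq_zero.mp b2 with h | h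
    · norm_num at h
    · exact h
  have c3 : ∀ z a : ℂ, fderiv ℝ g 0 ![z, a, 0, 0] = 0 := by
    intro z a
    apply hker
    · rw [rho_fderiv]
      ext i; fin_cases i <;> simp [A1, A2]
    · rw [rho_fderiv, A1_smul, A2_smul]
      ext i; fin_cases i <;> simp [A1, A2]
  have hall : ∀ v, fderiv ℝ g 0 v = (v 2).re • fderiv ℝ g 0 ![0, 0, 1, 0] +
      (v 3).re • fderiv ℝ g 0 ![0, 0, 0, 1] := by
    intro v
    have hv : v = ![v 0, v 1, 0, 0] + ((v 2).re • (![0, 0, 1, 0] : Fin 4 → ℂ) +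
        (v 2).im • (![0, 0, I, 0] : Fin 4 → ℂ)) + ((v 3).re • (![0, 0, 0, 1] : Fin 4 → ℂ) +
        (v 3).im • (![0, 0, 0, I] : Fin 4 → ℂ)) := by
      ext i
      fin_cases i
      · simp
      · simp
      · simp [re_add_im]
      · simp [re_add_im]
    conv_lhs => rw [hv]
    rw [map_add, map_add, map_add, map_add, map_smul, map_smul, map_smul, map_smul, c1, c2, c3]
    simp
  let Tm : (Fin 2 → ℝ) →ₗ[ℝ] (Fin k → ℝ) :=
    (LinearMap.proj 0).smulRight (fderiv ℝ g 0 ![0, 0, 1, 0]) +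
      (LinearMap.proj 1).smulRight (fderiv ℝ g 0 ![0, 0, 0, 1])
  have hTs : Function.Surjective Tm := by
    intro y
    obtain ⟨v, rfl⟩ := hsurj y
    refine ⟨![(v 2).re, (v 3).re], ?_⟩
    rw [hall v]
    simp [Tm]
  have hr := LinearMap.finrank_le_finrank_of_surjective hTs
  simp at hr
  omega

end minimal

/-- `f : M → ℂᴺ` extends meromorphically near `p`: there is a meromorphic map `F = P / Q` on a
neighbourhood `U` of `p` such that `f = F` at the points of `M ∩ U` at which `F` is holomorphic. -/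
def ExtendsMeromorphically {n N : ℕ} (M : Set (Fin n → ℂ))
    (f : (Fin n → ℂ) → EuclideanSpace ℂ (Fin N)) (p : Fin n → ℂ) : Prop :=
  ∃ (U : Set (Fin n → ℂ)) (P : (Fin n → ℂ) → EuclideanSpace ℂ (Fin N)) (Q : (Fin n → ℂ) → ℂ),
    IsOpen U ∧ p ∈ U ∧ AnalyticOnNhd ℂ P U ∧ AnalyticOnNhd ℂ Q U ∧
    (∀ x ∈ U, ¬ ∀ᶠ y in 𝓝 x, Q y = 0) ∧
    ∀ x ∈ U ∩ M, ∀ G : (Fin n → ℂ) → EuclideanSpace ℂ (Fin N), AnalyticAt ℂ G x →
      (∀ᶠ y in 𝓝 x, Q y • G y = P y) → f x = G x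

/-- `f : M → ℂᴺ` extends holomorphically to a neighbourhood of `p`. -/
def ExtendsHolomorphically {n N : ℕ} (M : Set (Fin n → ℂ))
    (f : (Fin n → ℂ) → EuclideanSpace ℂ (Fin N)) (p : Fin n → ℂ) : Prop :=
  ∃ (U : Set (Fin n → ℂ)) (G : (Fin n → ℂ) → EuclideanSpace ℂ (Fin N)),
    IsOpen U ∧ p ∈ U ∧ AnalyticOnNhd ℂ G U ∧ ∀ x ∈ U ∩ M, f x = G x

section maps

/-- the manifold -/
def MM : Set (Fin 4 → ℂ) := {x | rho x = 0}

/-- the denominator -/
noncomputable def QQ (x : Fin 4 → ℂ) : ℂ := x 3 - x 2 ^ 2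

/-- the numerators -/
noncomputable def PP (j : Fin 6) (x : Fin 4 → ℂ) : ℂ :=
  ![(1 - x 2) * x 3, x 1 * x 3, x 2 ^ 2, (√2 : ℂ) * (x 2 * x 0), x 1 * (2 * x 2 - x 3),
    x 2 * (2 * x 2 - x 3)] j

theorem sum_PP (x : Fin 4 → ℂ) (hx : rho x = 0) : ∑ j, ‖PP j x‖ ^ 2 = ‖QQ x‖ ^ 2 := by
  have h2 : ((√2 : ℝ) : ℂ) * ((√2 : ℝ) : ℂ) = 2 := by
    rw [← ofReal_mul, Real.mul_self_sqrt (by norm_num)]; norm_num
  rw [rho_zero_iff] at hx
  obtain ⟨hb, hW⟩ := hx
  have ea : (normSq (x 1) : ℂ) = conj (x 1) * x 1 := normSq_eq_conj_mul_self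
  have eb : (normSq (x 2) : ℂ) = conj (x 2) * x 2 := normSq_eq_conj_mul_self
  have ez : (normSq (x 0) : ℂ) = conj (x 0) * x 0 := normSq_eq_conj_mul_self
  have h1 : x 2 + conj (x 2) = 2 * (conj (x 1) * x 1 + conj (x 2) * x 2) := by
    rw [add_conj, hb, ← ea, ← eb]; push_cast; ring
  have h3 : x 3 + conj (x 3) =
      2 * (conj (x 0) * x 0 + 2 * (conj (x 1) * x 1 + conj (x 2) * x 2)) := by
    rw [add_conj, hW, ← ea, ← eb, ← ez]; push_cast; ring
  have key : ∀ w : ℂ, ((‖w‖ ^ 2 : ℝ) : ℂ) = conj w * w := by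
    intro w
    rw [Complex.sq_norm]
    exact normSq_eq_conj_mul_self
  have goal : ((∑ j, ‖PP j x‖ ^ 2 : ℝ) : ℂ) = ((‖QQ x‖ ^ 2 : ℝ) : ℂ) := by
    rw [ofReal_sum]
    have c2 : conj (2 : ℂ) = 2 := map_ofNat _ 2
    simp only [key, Fin.sum_univ_succ, PP, QQ]
    simp [map_mul, map_sub, map_pow, c2]
    linear_combination (-(x 3 * conj (x 3) - x 3 * conj (x 2) - x 2 * conj (x 3))) * h1 -
      (x 2 * conj (x 2)) * h3 + (conj (x 2) * conj (x 0) * (x 2 * x 0)) * h2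
  exact_mod_cast goal

theorem PP_le (x : Fin 4 → ℂ) (hx : rho x = 0) (j : Fin 6) : ‖PP j x‖ ≤ ‖QQ x‖ := by
  have h := sum_PP x hx
  have h1 : ‖PP j x‖ ^ 2 ≤ ‖QQ x‖ ^ 2 := by
    rw [← h]
    exact Finset.single_le_sum (f := fun j => ‖PP j x‖ ^ 2) (fun i _ => sq_nonneg _)
      (Finset.mem_univ j)
  exact le_of_sq_le_sq h1 (norm_nonneg _)

theorem QQ_lower (x : Fin 4 → ℂ) (hx : rho x = 0) :
    normSq (x 0) + normSq (x 1) + normSq (x 2) ≤ ‖QQ x‖ := by
  rw [rho_zero_iff] at hx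
  obtain ⟨hb, hW⟩ := hx
  have h1 : (QQ x).re ≤ ‖QQ x‖ := re_le_norm _
  have h2 : (QQ x).re = (x 3).re - ((x 2).re ^ 2 - (x 2).im ^ 2) := by
    simp [QQ, pow_two]
  have h3 : normSq (x 2) = (x 2).re ^ 2 + (x 2).im ^ 2 := by rw [normSq_apply]; ring
  have h4 := normSq_nonneg (x 1)
  nlinarith [sq_nonneg (x 2).im]

theorem QQ_ne {x : Fin 4 → ℂ} (hx : rho x = 0) (h0 : x ≠ 0) : QQ x ≠ 0 := by
  intro h
  have h1 := QQ_lower x hx
  rw [h, norm_zero] at h1
  have n0 := normSq_nonneg (x 0)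
  have n1 := normSq_nonneg (x 1)
  have n2 := normSq_nonneg (x 2)
  have z0 : x 0 = 0 := normSq_eq_zero.mp (by linarith)
  have z1 : x 1 = 0 := normSq_eq_zero.mp (by linarith)
  have z2 : x 2 = 0 := normSq_eq_zero.mp (by linarith)
  have z3 : x 3 = 0 := by
    have : QQ x = x 3 - x 2 ^ 2 := rfl
    rw [h, z2] at this
    simpa using this.symm
  apply h0
  ext i
  fin_cases i
  · exact z0
  · exact z1
  · exact z2
  · exact z3

theorem QQ_zero : QQ 0 = 0 := by simp [QQ]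

theorem a_sq_le (x : Fin 4 → ℂ) (hx : rho x = 0) : ‖x 1‖ ^ 2 ≤ ‖QQ x‖ := by
  have h1 := QQ_lower x hx
  rw [Complex.sq_norm]
  have n0 := normSq_nonneg (x 0)
  have n2 := normSq_nonneg (x 2)
  linarith

theorem PP_contDiff (j : Fin 6) : ContDiff ℂ ω (PP j) := by
  fin_cases j
  · show ContDiff ℂ ω (fun x : Fin 4 → ℂ => (1 - x 2) * x 3)
    fun_prop
  · show ContDiff ℂ ω (fun x : Fin 4 → ℂ => x 1 * x 3)
    fun_prop
  · show ContDiff ℂ ω (fun x : Fin 4 → ℂ => x 2 ^ 2)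
    fun_prop
  · show ContDiff ℂ ω (fun x : Fin 4 → ℂ => (√2 : ℂ) * (x 2 * x 0))
    fun_prop
  · show ContDiff ℂ ω (fun x : Fin 4 → ℂ => x 1 * (2 * x 2 - x 3))
    fun_prop
  · show ContDiff ℂ ω (fun x : Fin 4 → ℂ => x 2 * (2 * x 2 - x 3))
    fun_prop

theorem QQ_contDiff : ContDiff ℂ ω QQ := by
  unfold QQ
  fun_prop

/-- the singular components -/
noncomputable def hh (j : Fin 6) (x : Fin 4 → ℂ) : ℂ := 8 * x 1 ^ 3 * PP j x * (QQ x)⁻¹

/-- the coordinate projection -/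
noncomputable def pr (i : Fin 4) : (Fin 4 → ℂ) →L[ℂ] ℂ := ContinuousLinearMap.proj i

/-- the derivative of the singular components -/
noncomputable def DD (j : Fin 6) (x : Fin 4 → ℂ) : (Fin 4 → ℂ) →L[ℂ] ℂ :=
  (QQ x)⁻¹ • ((24 * x 1 ^ 2 * PP j x) • pr 1 + (8 * x 1 ^ 3) • fderiv ℂ (PP j) x) -
    (8 * x 1 ^ 3 * PP j x * ((QQ x)⁻¹ * (QQ x)⁻¹)) • fderiv ℂ QQ x

theorem hh_deriv (j : Fin 6) {x : Fin 4 → ℂ} (hQ : QQ x ≠ 0) : HasFDerivAt (hh j) (DD j x) x := by
  have h1 : HasFDerivAt (fun x : Fin 4 → ℂ => x 1) (pr 1) x := (pr 1).hasFDerivAt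
  have h2 : HasFDerivAt (PP j) (fderiv ℂ (PP j) x) x :=
    ((PP_contDiff j).differentiable (by simp) x).hasFDerivAt
  have h3 : HasFDerivAt QQ (fderiv ℂ QQ x) x :=
    (QQ_contDiff.differentiable (by simp) x).hasFDerivAt
  have h5 : HasFDerivAt (fun x => (QQ x)⁻¹) ((-(QQ x ^ 2)⁻¹) • fderiv ℂ QQ x) x :=
    (hasDerivAt_inv hQ).comp_hasFDerivAt x h3
  have h4 := ((((h1.pow 3).const_mul 8).mul h2).mul h5)
  refine h4.congr_fderiv ?_
  ext v
  simp [DD]
  field_simp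
  ring

theorem rho_zero_zero : rho 0 = 0 := by
  rw [rho_zero_iff]; simp

theorem DD_zero (j : Fin 6) : DD j 0 = 0 := by
  ext v
  simp [DD, QQ_zero]

theorem hh_zero (j : Fin 6) : hh j 0 = 0 := by
  rw [hh, QQ_zero]
  simp

theorem norm_pr_le (i : Fin 4) : ‖pr i‖ ≤ 1 := by
  refine ContinuousLinearMap.opNorm_le_bound _ zero_le_one fun v => ?_
  rw [one_mul]
  exact norm_le_pi_norm v i

theorem DD_bound (j : Fin 6) {x : Fin 4 → ℂ} (hx : rho x = 0) :
    ‖DD j x‖ ≤ 24 * ‖x 1‖ ^ 2 + 8 * ‖x 1‖ * (‖fderiv ℂ (PP j) x‖ + ‖fderiv ℂ QQ x‖) := by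
  by_cases h0 : x = 0
  · rw [h0, DD_zero, norm_zero]
    positivity
  have hQ : QQ x ≠ 0 := QQ_ne hx h0
  have hq : 0 < ‖QQ x‖ := norm_pos_iff.mpr hQ
  have hP := PP_le x hx j
  have ha := a_sq_le x hx
  have e1 : ‖(QQ x)⁻¹ • ((24 * x 1 ^ 2 * PP j x) • pr 1 + (8 * x 1 ^ 3) • fderiv ℂ (PP j) x)‖ ≤
      24 * ‖x 1‖ ^ 2 + 8 * ‖x 1‖ * ‖fderiv ℂ (PP j) x‖ := by
    rw [norm_smul, norm_inv, inv_mul_le_iff₀ hq]
    calc ‖(24 * x 1 ^ 2 * PP j x) • pr 1 + (8 * x 1 ^ 3) • fderiv ℂ (PP j) x‖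
        ≤ ‖(24 * x 1 ^ 2 * PP j x) • pr 1‖ + ‖(8 * x 1 ^ 3) • fderiv ℂ (PP j) x‖ :=
          norm_add_le _ _
      _ = 24 * ‖x 1‖ ^ 2 * ‖PP j x‖ * ‖pr 1‖ + 8 * ‖x 1‖ ^ 3 * ‖fderiv ℂ (PP j) x‖ := by
          rw [norm_smul, norm_smul]
          simp
      _ ≤ 24 * ‖x 1‖ ^ 2 * ‖QQ x‖ * 1 + 8 * (‖x 1‖ * ‖QQ x‖) * ‖fderiv ℂ (PP j) x‖ := by
          have h1 : 24 * ‖x 1‖ ^ 2 * ‖PP j x‖ * ‖pr 1‖ ≤ 24 * ‖x 1‖ ^ 2 * ‖QQ x‖ * 1 :=
            mul_le_mul (mul_le_mul_of_nonneg_left hP (by positivity)) (norm_pr_le 1)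
              (norm_nonneg _) (by positivity)
          have h2 : ‖x 1‖ ^ 3 ≤ ‖x 1‖ * ‖QQ x‖ := by
            have := mul_le_mul_of_nonneg_left ha (norm_nonneg (x 1))
            calc ‖x 1‖ ^ 3 = ‖x 1‖ * ‖x 1‖ ^ 2 := by ring
              _ ≤ _ := this
          have h3 : 8 * ‖x 1‖ ^ 3 * ‖fderiv ℂ (PP j) x‖ ≤
              8 * (‖x 1‖ * ‖QQ x‖) * ‖fderiv ℂ (PP j) x‖ :=
            mul_le_mul_of_nonneg_right (by linarith) (norm_nonneg _)
          linarith
      _ = ‖QQ x‖ * (24 * ‖x 1‖ ^ 2 + 8 * ‖x 1‖ * ‖fderiv ℂ (PP j) x‖) := by ring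
  have e2 : ‖(8 * x 1 ^ 3 * PP j x * ((QQ x)⁻¹ * (QQ x)⁻¹)) • fderiv ℂ QQ x‖ ≤
      8 * ‖x 1‖ * ‖fderiv ℂ QQ x‖ := by
    rw [norm_smul]
    refine mul_le_mul_of_nonneg_right ?_ (norm_nonneg _)
    have : ‖8 * x 1 ^ 3 * PP j x * ((QQ x)⁻¹ * (QQ x)⁻¹)‖ =
        8 * ‖x 1‖ * (‖x 1‖ ^ 2 * ‖PP j x‖) / (‖QQ x‖ * ‖QQ x‖) := by
      simp
      field_simp
    rw [this, div_le_iff₀ (by positivity)]
    have h4 : ‖x 1‖ ^ 2 * ‖PP j x‖ ≤ ‖QQ x‖ * ‖QQ x‖ :=
      mul_le_mul ha hP (norm_nonneg _) (norm_nonneg _)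
    exact mul_le_mul_of_nonneg_left h4 (by positivity)
  calc ‖DD j x‖ ≤ _ := norm_sub_le _ _
    _ ≤ _ := by linarith

theorem continuous_fderiv_PP (j : Fin 6) : Continuous (fderiv ℂ (PP j)) :=
  (PP_contDiff j).continuous_fderiv (by simp)

theorem continuous_fderiv_QQ : Continuous (fderiv ℂ QQ) :=
  QQ_contDiff.continuous_fderiv (by simp)

theorem DD_continuousOn (j : Fin 6) : ContinuousOn (DD j) MM := by
  intro x hx
  by_cases h0 : x = 0
  · subst h0
    have hb : Tendsto (fun x : Fin 4 → ℂ => 24 * ‖x 1‖ ^ 2 + 8 * ‖x 1‖ *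
        (‖fderiv ℂ (PP j) x‖ + ‖fderiv ℂ QQ x‖)) (𝓝[MM] 0) (𝓝 0) := by
      have hc : Continuous (fun x : Fin 4 → ℂ => 24 * ‖x 1‖ ^ 2 + 8 * ‖x 1‖ *
          (‖fderiv ℂ (PP j) x‖ + ‖fderiv ℂ QQ x‖)) := by
        have h1 := (continuous_fderiv_PP j).norm
        have h2 := continuous_fderiv_QQ.norm
        fun_prop
      have := (hc.tendsto 0).mono_left (nhdsWithin_le_nhds (s := MM))
      simpa using this
    show Tendsto (DD j) (𝓝[MM] 0) (𝓝 (DD j 0))
    rw [DD_zero]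
    refine squeeze_zero_norm' ?_ hb
    filter_upwards [self_mem_nhdsWithin] with y hy
    exact DD_bound j hy
  · have hQ : QQ x ≠ 0 := QQ_ne hx h0
    have c1 : ContinuousAt (fun x => (QQ x)⁻¹) x := QQ_contDiff.continuous.continuousAt.inv₀ hQ
    have c2 : ContinuousAt (PP j) x := (PP_contDiff j).continuous.continuousAt
    have c3 : ContinuousAt (fun x : Fin 4 → ℂ => x 1) x := (continuous_apply 1).continuousAt
    have c4 := (continuous_fderiv_PP j).continuousAt (x := x)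
    have c5 := continuous_fderiv_QQ.continuousAt (x := x)
    refine ContinuousAt.continuousWithinAt ?_
    exact (c1.smul ((((continuousAt_const.mul (c3.pow 2)).mul c2).smul continuousAt_const).add
      ((continuousAt_const.mul (c3.pow 3)).smul c4))).sub
      ((((continuousAt_const.mul (c3.pow 3)).mul c2).mul (c1.mul c1)).smul c5)

theorem hh_bound (j : Fin 6) {x : Fin 4 → ℂ} (hx : rho x = 0) : ‖hh j x‖ ≤ 8 * ‖x 1‖ ^ 3 := by
  by_cases h0 : x = 0
  · rw [h0, hh_zero, norm_zero]; positivity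
  have hQ : QQ x ≠ 0 := QQ_ne hx h0
  have hq : 0 < ‖QQ x‖ := norm_pos_iff.mpr hQ
  have : ‖hh j x‖ = 8 * ‖x 1‖ ^ 3 * (‖PP j x‖ / ‖QQ x‖) := by
    simp [hh]; field_simp
  rw [this]
  have h1 : ‖PP j x‖ / ‖QQ x‖ ≤ 1 := (div_le_one hq).mpr (PP_le x hx j)
  have h2 : 0 ≤ 8 * ‖x 1‖ ^ 3 := by positivity
  nlinarith

theorem hh_hasFDerivWithinAt (j : Fin 6) {x : Fin 4 → ℂ} (hx : x ∈ MM) :
    HasFDerivWithinAt (hh j) ((DD j x).restrictScalars ℝ) MM x := by
  by_cases h0 : x = 0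
  · subst h0
    rw [DD_zero]
    rw [hasFDerivWithinAt_iff_isLittleO, Asymptotics.isLittleO_iff]
    intro c hc
    have h1 : ∀ᶠ y : Fin 4 → ℂ in 𝓝[MM] 0, 8 * ‖y‖ ^ 2 < c := by
      have hcont : Continuous (fun y : Fin 4 → ℂ => 8 * ‖y‖ ^ 2) := by fun_prop
      have := (hcont.tendsto 0).mono_left (nhdsWithin_le_nhds (s := MM))
      rw [norm_zero] at this
      refine this.eventually (gt_mem_nhds ?_)
      simpa using hc
    filter_upwards [h1, self_mem_nhdsWithin] with y hy hyM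
    rw [hh_zero]
    simp only [sub_zero, ContinuousLinearMap.restrictScalars_zero, zero_apply]
    have h2 := hh_bound j hyM
    have h3 : ‖y 1‖ ≤ ‖y‖ := norm_le_pi_norm y 1
    have h4 : ‖y 1‖ ^ 3 ≤ ‖y‖ ^ 3 := pow_le_pow_left₀ (norm_nonneg _) h3 3
    calc ‖hh j y‖ ≤ 8 * ‖y 1‖ ^ 3 := h2
      _ ≤ 8 * ‖y‖ ^ 3 := by linarith
      _ = 8 * ‖y‖ ^ 2 * ‖y‖ := by ring
      _ ≤ c * ‖y‖ := mul_le_mul_of_nonneg_right hy.le (norm_nonneg _)
  · exact ((hh_deriv j (QQ_ne hx h0)).restrictScalars ℝ).hasFDerivWithinAt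

theorem hh_CR (j : Fin 6) : IsCRFunction MM (hh j) :=
  isCRFunction_of_deriv (DD j) (DD_continuousOn j) fun _ hq => hh_hasFDerivWithinAt j hq

theorem contDiff_CR {u : (Fin 4 → ℂ) → ℂ} (hu : ContDiff ℂ ω u) : IsCRFunction MM u :=
  isCRFunction_of_deriv (fderiv ℂ u) (hu.continuous_fderiv (by simp)).continuousOn
    fun q _ => ((hu.differentiable (by simp) q).hasFDerivAt.restrictScalars ℝ).hasFDerivWithinAt

/-- the components of the map -/
noncomputable def comps (x : Fin 4 → ℂ) : Fin 9 → ℂ :=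
  ![1 - 2 * x 2, 2 * x 1 * (1 - 2 * x 2), 4 * x 1 ^ 2 * (1 - 2 * x 2),
    hh 0 x, hh 1 x, hh 2 x, hh 3 x, hh 4 x, hh 5 x]

/-- the map into the sphere -/
noncomputable def ff (x : Fin 4 → ℂ) : EuclideanSpace ℂ (Fin 9) := WithLp.toLp 2 (comps x)

theorem ff_CR (i : Fin 9) : IsCRFunction MM (fun x => ff x i) := by
  fin_cases i
  · apply contDiff_CR
    show ContDiff ℂ ω (fun x : Fin 4 → ℂ => 1 - 2 * x 2)
    fun_prop
  · apply contDiff_CR
    show ContDiff ℂ ω (fun x : Fin 4 → ℂ => 2 * x 1 * (1 - 2 * x 2))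
    fun_prop
  · apply contDiff_CR
    show ContDiff ℂ ω (fun x : Fin 4 → ℂ => 4 * x 1 ^ 2 * (1 - 2 * x 2))
    fun_prop
  · exact hh_CR 0
  · exact hh_CR 1
  · exact hh_CR 2
  · exact hh_CR 3
  · exact hh_CR 4
  · exact hh_CR 5

theorem sphere_norm {q : Fin 4 → ℂ} (hq : rho q = 0) :
    ‖1 - 2 * q 2‖ ^ 2 + 4 * ‖q 1‖ ^ 2 = 1 := by
  have h := sphere_id hq
  have e1 : ((‖1 - 2 * q 2‖ ^ 2 : ℝ) : ℂ) = (1 - 2 * conj (q 2)) * (1 - 2 * q 2) := by
    rw [Complex.sq_norm, normSq_eq_conj_mul_self, map_sub, map_mul, map_one, map_ofNat]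
  have e2 : ((‖q 1‖ ^ 2 : ℝ) : ℂ) = conj (q 1) * q 1 := by
    rw [Complex.sq_norm, normSq_eq_conj_mul_self]
  have : ((‖1 - 2 * q 2‖ ^ 2 + 4 * ‖q 1‖ ^ 2 : ℝ) : ℂ) = ((1 : ℝ) : ℂ) := by
    rw [ofReal_add, ofReal_mul, e1, e2]
    push_cast
    exact h
  exact_mod_cast this

theorem ff_norm {x : Fin 4 → ℂ} (hx : rho x = 0) : ‖ff x‖ = 1 := by
  have hs := sphere_norm hx
  have h : ‖ff x‖ ^ 2 = 1 := by
    rw [EuclideanSpace.norm_sq_eq]
    by_cases h0 : x = 0
    · subst h0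
      simp [ff, comps, Fin.sum_univ_succ, hh_zero]
    · have hQ : QQ x ≠ 0 := QQ_ne hx h0
      have hq : 0 < ‖QQ x‖ := norm_pos_iff.mpr hQ
      have hP := sum_PP x hx
      have e : ∀ j, ‖hh j x‖ ^ 2 = 64 * ‖x 1‖ ^ 6 * ‖PP j x‖ ^ 2 / ‖QQ x‖ ^ 2 := by
        intro j
        simp only [hh, norm_mul, norm_pow, norm_inv]
        norm_num
        field_simp
        ring
      have hsum : ∑ i, ‖ff x i‖ ^ 2 = ‖1 - 2 * x 2‖ ^ 2 + ‖2 * x 1 * (1 - 2 * x 2)‖ ^ 2 +
          ‖4 * x 1 ^ 2 * (1 - 2 * x 2)‖ ^ 2 + ∑ j, ‖hh j x‖ ^ 2 := by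
        simp only [ff, comps, Fin.sum_univ_succ]
        simp
        ring
      rw [hsum]
      simp only [e]
      rw [← Finset.sum_div, ← Finset.mul_sum, hP, mul_div_assoc, div_self (by positivity), mul_one]
      simp only [norm_mul, norm_pow]
      norm_num
      have : ‖1 - 2 * x 2‖ ^ 2 = 1 - 4 * ‖x 1‖ ^ 2 := by linarith
      rw [mul_pow, mul_pow, mul_pow, this]
      ring
  have h2 := norm_nonneg (ff x)
  nlinarith

end maps

section ext

/-- the numerator of the map over the common denominator `QQ` -/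
noncomputable def numv (x : Fin 4 → ℂ) : Fin 9 → ℂ :=
  ![QQ x * (1 - 2 * x 2), QQ x * (2 * x 1 * (1 - 2 * x 2)), QQ x * (4 * x 1 ^ 2 * (1 - 2 * x 2)),
    8 * x 1 ^ 3 * PP 0 x, 8 * x 1 ^ 3 * PP 1 x, 8 * x 1 ^ 3 * PP 2 x, 8 * x 1 ^ 3 * PP 3 x,
    8 * x 1 ^ 3 * PP 4 x, 8 * x 1 ^ 3 * PP 5 x]

noncomputable def num (x : Fin 4 → ℂ) : EuclideanSpace ℂ (Fin 9) := WithLp.toLp 2 (numv x)

theorem x1_contDiff : ContDiff ℂ ω (fun x : Fin 4 → ℂ => 8 * x 1 ^ 3) := by fun_prop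

theorem numv_contDiff : ContDiff ℂ ω numv := by
  rw [contDiff_pi]
  intro i
  have hQ := QQ_contDiff
  fin_cases i
  · show ContDiff ℂ ω (fun x : Fin 4 → ℂ => QQ x * (1 - 2 * x 2))
    fun_prop
  · show ContDiff ℂ ω (fun x : Fin 4 → ℂ => QQ x * (2 * x 1 * (1 - 2 * x 2)))
    fun_prop
  · show ContDiff ℂ ω (fun x : Fin 4 → ℂ => QQ x * (4 * x 1 ^ 2 * (1 - 2 * x 2)))
    fun_prop
  · exact x1_contDiff.mul (PP_contDiff 0)
  · exact x1_contDiff.mul (PP_contDiff 1)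
  · exact x1_contDiff.mul (PP_contDiff 2)
  · exact x1_contDiff.mul (PP_contDiff 3)
  · exact x1_contDiff.mul (PP_contDiff 4)
  · exact x1_contDiff.mul (PP_contDiff 5)

theorem num_contDiff : ContDiff ℂ ω num :=
  ((EuclideanSpace.equiv (Fin 9) ℂ).symm.contDiff).comp numv_contDiff

theorem num_eq {x : Fin 4 → ℂ} (hQ : QQ x ≠ 0) : QQ x • ff x = num x := by
  ext i
  have e : ∀ j, QQ x * hh j x = 8 * x 1 ^ 3 * PP j x := by
    intro j; rw [hh]; field_simp
  fin_cases i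
  · rfl
  · rfl
  · rfl
  · exact e 0
  · exact e 1
  · exact e 2
  · exact e 3
  · exact e 4
  · exact e 5

/-- a point of the zero set of the denominator -/
noncomputable def zp (t : ℝ) : Fin 4 → ℂ := ![0, t, t, (t : ℂ) ^ 2]

theorem no_quotient (G : (Fin 4 → ℂ) → EuclideanSpace ℂ (Fin 9))
    (hG : ∀ᶠ y in 𝓝 (0 : Fin 4 → ℂ), QQ y • G y = num y) : False := by
  have hc : Continuous zp := by
    apply continuous_pi
    intro i
    fin_cases i
    · exact continuous_const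
    · exact continuous_ofReal
    · exact continuous_ofReal
    · exact continuous_ofReal.pow 2
  have h0 : zp 0 = 0 := by
    ext i; fin_cases i <;> simp [zp]
  have ht : Tendsto zp (𝓝[>] 0) (𝓝 0) := by
    have := (hc.tendsto 0).mono_left (nhdsWithin_le_nhds (s := Ioi (0 : ℝ)))
    rwa [h0] at this
  obtain ⟨t, ht1, ht2⟩ := ((ht.eventually hG).and self_mem_nhdsWithin).exists
  have htpos : (0 : ℝ) < t := ht2
  have hQ : QQ (zp t) = 0 := by simp [QQ, zp]
  rw [hQ, zero_smul] at ht1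
  have h5 := congrArg (fun v : EuclideanSpace ℂ (Fin 9) => v 5) ht1
  have h6 : (num (zp t)) 5 = 8 * (t : ℂ) ^ 3 * (t : ℂ) ^ 2 := by
    show 8 * (zp t) 1 ^ 3 * PP 2 (zp t) = _
    simp [PP, zp]
  have h7 : (0 : ℂ) = 8 * (t : ℂ) ^ 3 * (t : ℂ) ^ 2 := by
    rw [← h6]; exact h5
  have h8 : (8 * (t : ℂ) ^ 3 * (t : ℂ) ^ 2) ≠ 0 := by
    have : (t : ℂ) ≠ 0 := by exact_mod_cast htpos.ne'
    exact mul_ne_zero (mul_ne_zero (by norm_num) (pow_ne_zero 3 this)) (pow_ne_zero 2 this)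
  exact h8 h7.symm

theorem QQ_not_zero (x : Fin 4 → ℂ) : ¬ ∀ᶠ y in 𝓝 x, QQ y = 0 := by
  intro h
  have hc : Continuous (fun t : ℝ => x + (t : ℂ) • (![0, 0, 0, 1] : Fin 4 → ℂ)) := by fun_prop
  have ht : Tendsto (fun t : ℝ => x + (t : ℂ) • (![0, 0, 0, 1] : Fin 4 → ℂ)) (𝓝[>] 0) (𝓝 x) := by
    have := (hc.tendsto 0).mono_left (nhdsWithin_le_nhds (s := Ioi (0 : ℝ)))
    simpa using this
  obtain ⟨t, ht1, ht2⟩ := ((ht.eventually h).and self_mem_nhdsWithin).exists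
  have htpos : (0 : ℝ) < t := ht2
  have h0 : QQ x = 0 := h.self_of_nhds
  have h1 : QQ (x + (t : ℂ) • (![0, 0, 0, 1] : Fin 4 → ℂ)) = QQ x + t := by
    simp [QQ]; ring
  rw [h1, h0, zero_add] at ht1
  exact htpos.ne' (by exact_mod_cast ht1)

theorem ff_meromorphic : ExtendsMeromorphically MM ff 0 := by
  refine ⟨univ, num, QQ, isOpen_univ, mem_univ _,
    fun x _ => num_contDiff.contDiffAt.analyticAt, fun x _ => QQ_contDiff.contDiffAt.analyticAt,
    fun x _ => QQ_not_zero x, ?_⟩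
  rintro x ⟨-, hx⟩ G hG h
  by_cases h0 : x = 0
  · subst h0
    exact absurd h (fun h => no_quotient G h)
  · have hQ : QQ x ≠ 0 := QQ_ne hx h0
    have h1 := h.self_of_nhds
    rw [← num_eq hQ] at h1
    exact (smul_right_injective _ hQ h1).symm

/-- points of a complex line meeting `M` in a real line -/
noncomputable def ln (a t : ℝ) (w : ℂ) : Fin 4 → ℂ := ![0, a, t, w]

theorem ff_not_holomorphic : ¬ ExtendsHolomorphically MM ff 0 := by
  rintro ⟨U, G, hU, h0U, hG, hfG⟩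
  obtain ⟨r, hr, hrU⟩ := Metric.isOpen_iff.mp hU 0 h0U
  set t : ℝ := min (1 / 4) (r ^ 2 / 16) with htdef
  have ht0 : 0 < t := by positivity
  have ht1 : t ≤ 1 / 4 := min_le_left _ _
  have ht2 : t ≤ r ^ 2 / 16 := min_le_right _ _
  set a : ℝ := √(t - t ^ 2) with hadef
  have ha0 : 0 < t - t ^ 2 := by nlinarith
  have hapos : 0 < a := Real.sqrt_pos.mpr ha0
  have hasq : a ^ 2 = t - t ^ 2 := Real.sq_sqrt ha0.le
  have har : a < r := by
    have : a ^ 2 < r ^ 2 := by nlinarith [sq_nonneg t, sq_nonneg r, pow_pos hr 2]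
    exact lt_of_pow_lt_pow_left₀ 2 hr.le this
  have hta : t ≤ a := by
    have : t ^ 2 ≤ a ^ 2 := by rw [hasq]; nlinarith
    exact le_of_sq_le_sq this hapos.le
  have h2tr : 2 * t < r := by
    by_contra h
    push Not at h
    have h5 : 2 * t ≤ 2 * (r ^ 2 / 16) := by linarith
    have h6 : r ≤ r ^ 2 / 8 := by linarith
    have h7 : 8 ≤ r := by nlinarith
    linarith
  have hmem : ∀ w : ℂ, ‖w‖ < r → ln a t w ∈ U := by
    intro w hw
    apply hrU
    rw [Metric.mem_ball, dist_zero_right, pi_norm_lt_iff hr]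
    intro i
    fin_cases i
    · show ‖(0 : ℂ)‖ < r
      simpa using hr
    · show ‖(a : ℂ)‖ < r
      rw [Complex.norm_real, Real.norm_of_nonneg hapos.le]
      exact har
    · show ‖(t : ℂ)‖ < r
      rw [Complex.norm_real, Real.norm_of_nonneg ht0.le]
      linarith
    · exact hw
  have hlnM : ∀ v : ℝ, ln a t (2 * t + v * I) ∈ MM := by
    intro v
    show rho _ = 0
    rw [rho_zero_iff]
    constructor
    · show (t : ℂ).re = normSq (a : ℂ) + normSq (t : ℂ)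
      rw [ofReal_re, normSq_ofReal, normSq_ofReal]
      nlinarith
    · show ((2 * t + v * I : ℂ)).re = normSq (0 : ℂ) + 2 * (normSq (a : ℂ) + normSq (t : ℂ))
      rw [normSq_ofReal, normSq_ofReal]
      simp
      nlinarith
  have hln : ContDiff ℂ ω (ln a t) := by
    rw [contDiff_pi]
    intro i
    fin_cases i
    · exact contDiff_const
    · exact contDiff_const
    · exact contDiff_const
    · exact contDiff_id
  let h : ℂ → ℂ := fun w => (G (ln a t w)) 5 * (w - (t : ℂ) ^ 2)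
  have hh1 : AnalyticOnNhd ℂ h (Metric.ball 0 r) := by
    intro w hw
    rw [Metric.mem_ball, dist_zero_right] at hw
    have h1 : AnalyticAt ℂ G (ln a t w) := hG _ (hmem w hw)
    have h2 : AnalyticAt ℂ (ln a t) w := hln.contDiffAt.analyticAt
    have h3 : AnalyticAt ℂ (fun w => G (ln a t w)) w := h1.comp h2
    have h4 : AnalyticAt ℂ (fun w => (G (ln a t w)) 5) w :=
      ((EuclideanSpace.proj (5 : Fin 9) : EuclideanSpace ℂ (Fin 9) →L[ℂ] ℂ).analyticAt _).comp h3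
    exact h4.mul (analyticAt_id.sub analyticAt_const)
  have hh2 : AnalyticOnNhd ℂ (fun _ : ℂ => 8 * (a : ℂ) ^ 3 * (t : ℂ) ^ 2) (Metric.ball 0 r) :=
    fun w _ => analyticAt_const
  have hev : ∀ v : ℝ, ‖(2 * t + v * I : ℂ)‖ < r →
      h (2 * t + v * I) = 8 * (a : ℂ) ^ 3 * (t : ℂ) ^ 2 := by
    intro v hv
    have h1 := hfG _ ⟨hmem _ hv, hlnM v⟩
    show (G (ln a t (2 * t + v * I))) 5 * ((2 * t + v * I) - (t : ℂ) ^ 2) = _
    rw [← h1]
    have hQ : QQ (ln a t (2 * t + v * I)) ≠ 0 := by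
      apply QQ_ne (hlnM v)
      intro h
      have := congrFun h 2
      have h3 : (t : ℂ) = 0 := this
      exact ht0.ne' (by exact_mod_cast h3)
    have hQ2 : QQ (ln a t (2 * t + v * I)) = (2 * t + v * I) - (t : ℂ) ^ 2 := rfl
    have h2 : QQ (ln a t (2 * t + v * I)) * (ff (ln a t (2 * t + v * I))) 5 =
        8 * (a : ℂ) ^ 3 * (t : ℂ) ^ 2 := by
      have h3 := congrArg (fun v : EuclideanSpace ℂ (Fin 9) => v 5) (num_eq hQ)
      exact h3
    rw [← hQ2, mul_comm]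
    exact h2
  have h2t : ‖((2 * t : ℝ) : ℂ)‖ < r := by
    rw [Complex.norm_real, Real.norm_of_nonneg (by positivity)]
    exact h2tr
  have hcv : Continuous (fun v : ℝ => (2 * t + v * I : ℂ)) := by fun_prop
  have hfreq : ∃ᶠ w in 𝓝[≠] ((2 * t : ℝ) : ℂ), h w = 8 * (a : ℂ) ^ 3 * (t : ℂ) ^ 2 := by
    have htend : Tendsto (fun v : ℝ => (2 * t + v * I : ℂ)) (𝓝[>] 0) (𝓝[≠] ((2 * t : ℝ) : ℂ)) := by
      rw [tendsto_nhdsWithin_iff]
      constructor
      · have := (hcv.tendsto 0).mono_left (nhdsWithin_le_nhds (s := Ioi (0 : ℝ)))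
        simpa using this
      · filter_upwards [self_mem_nhdsWithin] with v hv
        have hv' : (0 : ℝ) < v := hv
        intro h
        have h' : (2 * t + v * I : ℂ) = ((2 * t : ℝ) : ℂ) := h
        have := congrArg Complex.im h'
        simp at this
        exact hv'.ne' this
    refine htend.frequently ?_
    apply Eventually.frequently
    have h3 : ∀ᶠ v : ℝ in 𝓝[>] 0, ‖(2 * t + v * I : ℂ)‖ < r := by
      have := ((hcv.norm).tendsto 0).mono_left (nhdsWithin_le_nhds (s := Ioi (0 : ℝ)))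
      refine this.eventually (gt_mem_nhds ?_)
      simpa using h2t
    filter_upwards [h3] with v hv
    exact hev v hv
  have hpre : IsPreconnected (Metric.ball (0 : ℂ) r) := (convex_ball 0 r).isPreconnected
  have hmem2 : ((2 * t : ℝ) : ℂ) ∈ Metric.ball (0 : ℂ) r := by
    rw [Metric.mem_ball, dist_zero_right]; exact h2t
  have heq := hh1.eqOn_of_preconnected_of_frequently_eq hh2 hpre hmem2 hfreq
  have hmem3 : ((t : ℂ) ^ 2) ∈ Metric.ball (0 : ℂ) r := by
    rw [Metric.mem_ball, dist_zero_right, norm_pow, Complex.norm_real,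
      Real.norm_of_nonneg ht0.le]
    nlinarith
  have h9 : h ((t : ℂ) ^ 2) = 8 * (a : ℂ) ^ 3 * (t : ℂ) ^ 2 := heq hmem3
  have h10 : (0 : ℂ) = 8 * (a : ℂ) ^ 3 * (t : ℂ) ^ 2 := by
    rw [← h9]
    show (0 : ℂ) = (G (ln a t ((t : ℂ) ^ 2))) 5 * ((t : ℂ) ^ 2 - (t : ℂ) ^ 2)
    rw [sub_self, mul_zero]
  have ht' : (t : ℂ) ≠ 0 := by exact_mod_cast ht0.ne'
  have ha' : (a : ℂ) ≠ 0 := by exact_mod_cast hapos.ne'
  have h11 : 8 * (a : ℂ) ^ 3 * (t : ℂ) ^ 2 ≠ 0 :=
    mul_ne_zero (mul_ne_zero (by norm_num) (pow_ne_zero 3 ha')) (pow_ne_zero 2 ht')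
  exact h11 h10.symm

end ext

/-- There are `n < N`, a generic real-analytic submanifold `M = {ρ = 0}` of `ℂⁿ`, a point `p ∈ M`
at which `M` is minimal, and a continuous CR map `f` of `M` into the unit sphere of `ℂᴺ` which
extends meromorphically near `p` but does not extend holomorphically near `p`. -/
theorem result :
    ∃ (n N d : ℕ) (ρ : (Fin n → ℂ) → (Fin d → ℝ)) (p : Fin n → ℂ)
      (f : (Fin n → ℂ) → EuclideanSpace ℂ (Fin N)),
      n < N ∧ IsGenericDefining ρ ∧ ρ p = 0 ∧ IsMinimalAt ρ p ∧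
      ContinuousOn f {x | ρ x = 0} ∧ (∀ i, IsCRFunction {x | ρ x = 0} (fun x => f x i)) ∧
      (∀ x, ρ x = 0 → ‖f x‖ = 1) ∧
      ExtendsMeromorphically {x | ρ x = 0} f p ∧ ¬ ExtendsHolomorphically {x | ρ x = 0} f p := by
  refine ⟨4, 9, 2, rho, 0, ff, by norm_num, rho_generic, rho_zero_zero, rho_minimal, ?_, ff_CR,
    fun x hx => ff_norm hx, ff_meromorphic, ff_not_holomorphic⟩
  have h : ContinuousOn comps MM := continuousOn_pi.mpr fun i => (ff_CR i).1
  exact ((EuclideanSpace.equiv (Fin 9) ℂ).symm.continuous).comp_continuousOn h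

end Pool.Agent.Results.MP_c4ba3a_an.SphereCR
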